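import Pool.Agent.Y202.U.Stm

/-!
# Project Y202/U, part W2: evolution of the pair kernel of coalescing walks
-/

namespace Pool.Agent.Y974.U

open Finset Pool.Agent.W788.NV Pool.Agent.W788.NW Pool.Agent.Y202.U

/-- moves of the pair chain -/
def e2 {V : Type} [DecidableEq V] {q : ℕ} (e : (V × Fin q) ⊕ (V × V))
    (p : Option V × Option V) : Option V × Option V := (p.1.bind (fe e), p.2.bind (fe e))

/-- the two walks occupy exactly `v` and `w` -/
def J {V : Type} (v w : V) (p : Option V × Option V) : Prop :=
  ((p.1 = some v ∨ p.1 = some w) ∧ (p.2 = some v ∨ p.2 = some w)) ∧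
    ((p.1 = some v ∨ p.2 = some v) ∧ (p.1 = some w ∨ p.2 = some w))

open Classical in
/-- the observable of the pair kernel -/
noncomputable def ph {V : Type} [Fintype V] (G : SimpleGraph V) (q : ℕ) (θ : ℝ)
    (p : Option V × Option V) : ℝ :=
  ∑ k : V × V, mrate G q θ (Sum.inr k) * (if J k.1 k.2 p then 1 else 0)

/-- the pair kernel, on all the states of the pair chain -/
noncomputable def UU {V : Type} [Fintype V] [DecidableEq V] (G : SimpleGraph V) (q : ℕ) (θ : ℝ)
    (t : ℝ) (p : Option V × Option V) : ℝ :=
  sg (mrate G q θ) (e2 (V := V) (q := q)) t (ph G q θ) p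

theorem Im_iff {V : Type} [DecidableEq V] (a b v w : V) (σ : V → Option V) :
    Im ({a, b} : Finset V) {v, w} σ ↔ J v w (σ a, σ b) := by
  unfold Im J
  simp only [Finset.mem_insert, Finset.mem_singleton, exists_eq_or_imp, exists_eq_left,
    forall_eq_or_imp, forall_eq]

theorem mself {V : Type} [Fintype V] (G : SimpleGraph V) (q : ℕ) (θ : ℝ) (v : V) :
    mrate G q θ (Sum.inr (v, v)) = 0 := by
  simp [mrate]

theorem msum {V : Type} [Fintype V] (G : SimpleGraph V) (q : ℕ) (θ : ℝ) (v : V)
    (h : 1 ≤ dg G v) : ∑ w, mrate G q θ (Sum.inr (v, w)) = 1 - θ := by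
  classical
  have h1 : ∑ w, mrate G q θ (Sum.inr (v, w)) =
      ∑ w ∈ univ.filter (fun w => G.Adj v w), (1 - θ) / (dg G v : ℝ) := by
    rw [Finset.sum_filter]
    apply Finset.sum_congr rfl
    intro w _
    unfold mrate
    congr
  rw [h1, Finset.sum_const, nsmul_eq_mul]
  have h2 : ((univ.filter (fun w => G.Adj v w)).card : ℝ) = (dg G v : ℝ) := by
    unfold dg
    congr!
  rw [h2]
  have h3 : (dg G v : ℝ) ≠ 0 := by
    have : (1 : ℝ) ≤ (dg G v : ℝ) := by exact_mod_cast h
    intro h0
    rw [h0] at this
    linarith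
  field_simp

theorem Wp_UU {V : Type} [Fintype V] [DecidableEq V] (G : SimpleGraph V) (q : ℕ) (θ : ℝ)
    (t : ℝ) (a b : V) : Wp G q θ t a b = UU G q θ t (some a, some b) := by
  classical
  unfold Wp Ws UU ph
  rw [p_mk.lin, Fintype.sum_prod_type]
  apply Finset.sum_congr rfl
  intro v _
  apply Finset.sum_congr rfl
  intro w _
  congr 1
  unfold pim src
  have h := p_in (V → Option V) (Option V × Option V) ((V × Fin q) ⊕ (V × V)) (mrate G q θ)
    (opR (V := V) (q := q)) (e2 (V := V) (q := q)) (fun σ => (σ a, σ b))
    (fun e σ => rfl) (fun p => if J v w p then (1 : ℝ) else 0) some t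
  rw [← h]
  congr 1
  funext σ
  by_cases hI : Im ({a, b} : Finset V) {v, w} σ
  · rw [if_pos hI, if_pos ((Im_iff a b v w σ).1 hI)]
  · rw [if_neg hI, if_neg (fun h => hI ((Im_iff a b v w σ).2 h))]

/-- the closed set of the dead states -/
def dead {V : Type} (p : Option V × Option V) : Prop := p.1 = none ∨ p.2 = none ∨ p.1 = p.2

theorem ph_dead {V : Type} [Fintype V] (G : SimpleGraph V) (q : ℕ) (θ : ℝ)
    (p : Option V × Option V) (h : dead p) : ph G q θ p = 0 := by
  classical
  unfold ph
  apply Finset.sum_eq_zero
  rintro ⟨v, w⟩ _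
  obtain ⟨p1, p2⟩ := p
  by_cases hJ : J v w (p1, p2)
  · have hvw : v = w := by
      unfold J at hJ
      unfold dead at h
      simp only at hJ h
      rcases h with h | h | h
      · subst h; simp at hJ
      · subst h; simp at hJ
      · subst h
        obtain ⟨_, h1, h2⟩ := hJ
        simp only [or_self] at h1 h2
        rw [h1] at h2
        exact Option.some.inj h2
    subst hvw
    rw [mself]
    simp
  · rw [if_neg hJ, mul_zero]

theorem UU_dead {V : Type} [Fintype V] [DecidableEq V] (G : SimpleGraph V) (q : ℕ) (θ : ℝ)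
    (t : ℝ) (p : Option V × Option V) (h : dead p) : UU G q θ t p = 0 := by
  unfold UU
  have h1 := p_inv (Option V × Option V) ((V × Fin q) ⊕ (V × V)) (mrate G q θ)
    (e2 (V := V) (q := q)) dead (by
      rintro e ⟨p1, p2⟩ hx _
      unfold dead e2 at *
      simp only at hx ⊢
      rcases hx with h | h | h
      · left; rw [h]; rfl
      · right; left; rw [h]; rfl
      · right; right; rw [h]) (ph G q θ) (fun _ => 0) p t 0 h
  rw [h1.1 (fun y hy => ph_dead G q θ y hy), p_mk.cst]

theorem UU_deriv {V : Type} [Fintype V] [DecidableEq V] (G : SimpleGraph V) (q : ℕ) (θ : ℝ)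
    (t : ℝ) (p : Option V × Option V) :
    HasDerivAt (fun t => UU G q θ t p)
      (∑ e, mrate G q θ e * (UU G q θ t (e2 (V := V) (q := q) e p) - UU G q θ t p)) t := by
  have h := p_mk.deriv (Option V × Option V) ((V × Fin q) ⊕ (V × V)) (mrate G q θ)
    (e2 (V := V) (q := q)) (ph G q θ) p t
  rw [p_mk.comm] at h
  exact h

theorem gen_eq {V : Type} [Fintype V] [DecidableEq V] (G : SimpleGraph V) (q : ℕ) (θ : ℝ)
    (Δ : ℕ) (hA : SA G q θ Δ) (t : ℝ) (a b : V) (hab : a ≠ b) :
    ∑ e, mrate G q θ e * (UU G q θ t (e2 (V := V) (q := q) e (some a, some b)) -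
      UU G q θ t (some a, some b)) =
    -2 * Wp G q θ t a b + ∑ a', mrate G q θ (Sum.inr (a, a')) * Wp G q θ t a' b +
        ∑ b', mrate G q θ (Sum.inr (b, b')) * Wp G q θ t a b' := by
  classical
  have hq : (q : ℝ) ≠ 0 := by
    have := hA.q2
    have h2 : (2 : ℝ) ≤ q := by exact_mod_cast this
    intro h0; rw [h0] at h2; linarith
  set W := UU G q θ t (some a, some b) with hW
  rw [Fintype.sum_sum_type, Fintype.sum_prod_type, Fintype.sum_prod_type]
  have hn : ∀ v : V, ∑ c : Fin q, mrate G q θ (Sum.inl (v, c)) *
      (UU G q θ t (e2 (V := V) (q := q) (Sum.inl (v, c)) (some a, some b)) - W) =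
      (if v = a then -θ * W else 0) + (if v = b then -θ * W else 0) := by
    intro v
    have hc : ∀ c : Fin q, mrate G q θ (Sum.inl (v, c)) *
      (UU G q θ t (e2 (V := V) (q := q) (Sum.inl (v, c)) (some a, some b)) - W) =
      θ / q * ((if v = a then -W else 0) + (if v = b then -W else 0)) := by
      intro c
      show θ / q * _ = _
      congr 1
      by_cases hva : v = a
      · subst hva
        have hd : dead (e2 (V := V) (q := q) (Sum.inl (v, c)) (some v, some b)) := by
          left
          simp [e2, fe]
        rw [UU_dead G q θ t _ hd]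
        simp [hab]
      · by_cases hvb : v = b
        · subst hvb
          have hd : dead (e2 (V := V) (q := q) (Sum.inl (v, c)) (some a, some v)) := by
            right; left
            simp [e2, fe]
          rw [UU_dead G q θ t _ hd]
          simp [hva]
        · have : e2 (V := V) (q := q) (Sum.inl (v, c)) (some a, some b) = (some a, some b) := by
            simp [e2, fe, Ne.symm hva, Ne.symm hvb]
          rw [this, if_neg hva, if_neg hvb, ← hW]
          ring
    rw [Finset.sum_congr rfl (fun c _ => hc c), Finset.sum_const, Finset.card_univ,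
      Fintype.card_fin, nsmul_eq_mul]
    split_ifs <;> field_simp <;> ring
  have hm : ∀ v : V, ∑ w : V, mrate G q θ (Sum.inr (v, w)) *
      (UU G q θ t (e2 (V := V) (q := q) (Sum.inr (v, w)) (some a, some b)) - W) =
      (if v = a then (∑ w, mrate G q θ (Sum.inr (a, w)) * Wp G q θ t w b) - (1 - θ) * W else 0) +
      (if v = b then (∑ w, mrate G q θ (Sum.inr (b, w)) * Wp G q θ t a w) - (1 - θ) * W
        else 0) := by
    intro v
    by_cases hva : v = a
    · subst hva
      rw [if_pos rfl, if_neg hab, add_zero, ← msum G q θ v (hA.d1 v), Finset.sum_mul,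
        ← Finset.sum_sub_distrib]
      apply Finset.sum_congr rfl
      intro w _
      have : e2 (V := V) (q := q) (Sum.inr (v, w)) (some v, some b) = (some w, some b) := by
        simp [e2, fe, Ne.symm hab]
      rw [this, Wp_UU]
      ring
    · by_cases hvb : v = b
      · subst hvb
        rw [if_neg hva, if_pos rfl, zero_add, ← msum G q θ v (hA.d1 v), Finset.sum_mul,
          ← Finset.sum_sub_distrib]
        apply Finset.sum_congr rfl
        intro w _
        have : e2 (V := V) (q := q) (Sum.inr (v, w)) (some a, some v) = (some a, some w) := by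
          simp [e2, fe, hab]
        rw [this, Wp_UU]
        ring
      · rw [if_neg hva, if_neg hvb, add_zero]
        apply Finset.sum_eq_zero
        intro w _
        have : e2 (V := V) (q := q) (Sum.inr (v, w)) (some a, some b) = (some a, some b) := by
          simp [e2, fe, Ne.symm hva, Ne.symm hvb]
        rw [this, ← hW]
        ring
  rw [Finset.sum_congr rfl (fun v _ => hn v), Finset.sum_congr rfl (fun v _ => hm v),
    Finset.sum_add_distrib, Finset.sum_add_distrib]
  simp only [Finset.sum_ite_eq', Finset.mem_univ, if_true]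
  rw [Wp_UU G q θ t a b, ← hW]
  ring

/-- W2: the evolution of the pair kernel -/
theorem w2 : S_W2 := by
  intro V _ _ G q θ Δ hA
  have hr : ∀ e : (V × Fin q) ⊕ (V × V), 0 ≤ mrate G q θ e :=
    (p_tot V G q θ (le_trans (by norm_num) hA.q2) hA.t0.le hA.t1 hA.d1).1
  refine ⟨?_, ?_, ?_, ?_, ?_⟩
  · intro t S ht
    unfold Ws
    apply Finset.sum_nonneg
    intro v _
    apply Finset.sum_nonneg
    intro w _
    apply mul_nonneg (hr _)
    unfold pim src
    have h0 := p_mk.cst (V → Option V) ((V × Fin q) ⊕ (V × V)) (mrate G q θ)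
      (opR (V := V) (q := q)) 0 some t
    refine le_trans (le_of_eq h0.symm) ?_
    apply p_mk.mono _ _ _ _ _ _ _ _ hr ht
    intro σ
    split_ifs <;> norm_num
  · intro t a b
    unfold Wp
    rw [Finset.pair_comm]
  · intro t a
    rw [Wp_UU]
    exact UU_dead G q θ t _ (Or.inr (Or.inr rfl))
  · intro a b hab
    classical
    rw [Wp_UU]
    unfold UU
    rw [p_mk.zero]
    unfold ph
    have hs : ∀ k : V × V, mrate G q θ (Sum.inr k) *
        (if J k.1 k.2 ((some a : Option V), (some b : Option V)) then (1 : ℝ) else 0) =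
        (if k = (a, b) then mrate G q θ (Sum.inr (a, b)) else 0) +
        (if k = (b, a) then mrate G q θ (Sum.inr (b, a)) else 0) := by
      rintro ⟨v, w⟩
      by_cases h1 : (v, w) = (a, b)
      · have h2 : (v, w) ≠ (b, a) := by
          rw [h1]; intro h; exact hab (Prod.mk.inj h).1
        rw [if_pos h1, if_neg h2, add_zero]
        obtain ⟨rfl, rfl⟩ := Prod.mk.inj h1
        rw [if_pos, mul_one]
        unfold J; simp
      · by_cases h2 : (v, w) = (b, a)
        · rw [if_neg h1, if_pos h2, zero_add]
          obtain ⟨rfl, rfl⟩ := Prod.mk.inj h2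
          rw [if_pos, mul_one]
          unfold J; simp
        · rw [if_neg h1, if_neg h2, if_neg]
          · ring
          · intro hJ
            unfold J at hJ
            simp only [Option.some.injEq] at hJ
            obtain ⟨⟨h3, h4⟩, h5, h6⟩ := hJ
            rcases h3 with rfl | rfl
            · rcases h4 with rfl | rfl
              · exact hab rfl
              · exact h1 rfl
            · rcases h4 with rfl | rfl
              · exact h2 rfl
              · exact hab rfl
    rw [Finset.sum_congr rfl (fun k _ => hs k), Finset.sum_add_distrib]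
    simp only [Finset.sum_ite_eq', Finset.mem_univ, if_true]
  · intro t a b hab
    rw [← gen_eq G q θ Δ hA t a b hab]
    have h := UU_deriv G q θ t (some a, some b)
    have he : (fun t => Wp G q θ t a b) = fun t => UU G q θ t (some a, some b) := by
      funext t; exact Wp_UU G q θ t a b
    rw [he]
    exact h

end Pool.Agent.Y974.U
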